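import Pool.Agent.H95.FJ.Defs

open MvPolynomial

namespace H1.FJ
open H95.FG H95.FI H95.FJ

theorem t_SEML (hS : S_SEMP) : S_SEML := by
  intro n q T I w w' hli
  let d := Module.finrank ℂ (Vn n ⧸ I)
  let φ : (Vn n ⧸ I) ≃ₗ[ℂ] (Fin d → ℂ) := (Module.finBasis ℂ (Vn n ⧸ I)).equivFun
  let u : Fin q → Fin d → Polynomial ℂ := fun i k =>
    Polynomial.C (φ (I.mkQ (T i w)) k) +
      Polynomial.X * Polynomial.C (φ (I.mkQ (T i (w' - w))) k)
  have key : ∀ t : ℂ, (fun i (k : Fin d) => (u i k).eval t) =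
      fun i => φ (I.mkQ (T i (w + t • (w' - w)))) := by
    intro t
    funext i k
    rw [map_add, map_smul, map_add, map_smul, map_add, map_smul]
    simp only [u, Polynomial.eval_add, Polynomial.eval_mul, Polynomial.eval_C, Polynomial.eval_X,
      Pi.add_apply, Pi.smul_apply, smul_eq_mul]
  have hli2 : ∀ t : ℂ, LinearIndependent ℂ (fun i => φ (I.mkQ (T i (w + t • (w' - w))))) ↔
      LinearIndependent ℂ (fun i => I.mkQ (T i (w + t • (w' - w)))) := by
    intro t
    exact LinearMap.linearIndependent_iff (φ : (Vn n ⧸ I) →ₗ[ℂ] (Fin d → ℂ))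
      (LinearMap.ker_eq_bot.mpr φ.injective)
  have h0 : LinearIndependent ℂ (fun i (k : Fin d) => (u i k).eval 0) := by
    rw [key 0, hli2 0]
    simpa using hli
  refine (hS d q u 0 h0).subset ?_
  intro t ht
  change ¬ _ at ht
  change ¬ _
  rw [key t, hli2 t]
  exact ht

end H1.FJ
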